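import Pool.Agent.Q163.LP.Lim

/-!
# `1/((k+1)^{k+1} k!)` is a multiplier sequence
-/

namespace Pool.Agent.Results.MP_38d282_an.IsMultiplier

open Polynomial Filter Topology
open Pool.Agent.Helper771.MultSeq Pool.Agent.Q163.LP

/-- all zeros of `p` in `ℂ` are real -/
def RealZeros (p : ℝ[X]) : Prop := ∀ z : ℂ, aeval z p = 0 → z.im = 0

/-- Multiplier sequences (of the first kind): if `p = ∑ a_k x^k` has only real zeros, so has
`∑ γ_k a_k x^k`. -/
def IsMult (γ : ℕ → ℝ) : Prop :=
  ∀ p : ℝ[X], RealZeros p → RealZeros (p.sum fun k a => monomial k (γ k * a))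

/-- `LP⁺`: limits, uniformly on compact subsets of `ℂ`, of real polynomials all of whose zeros are
real and non-positive. -/
def InLPplus (f : ℂ → ℂ) : Prop := ∃ P : ℕ → ℝ[X],
  (∀ n, ∀ z : ℂ, aeval z (P n) = 0 → z.im = 0 ∧ z.re ≤ 0) ∧
  ∀ K : Set ℂ, IsCompact K → TendstoUniformlyOn (fun n (z : ℂ) => aeval z (P n)) f atTop K

/-- `λ_k = 1/((k+1)^{k+1} k!)` is a multiplier sequence, and `∑ λ_k x^k/k!` is in `LP⁺`. -/
theorem result :
    IsMult (fun k => 1 / (((k : ℝ) + 1) ^ (k + 1) * (k.factorial : ℝ))) ∧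
    InLPplus (fun x => ∑' k : ℕ,
      ((1 / (((k : ℝ) + 1) ^ (k + 1) * (k.factorial : ℝ) ^ 2) : ℝ) : ℂ) * x ^ k) := by
  constructor
  · intro p hp
    have hp0 : p ≠ 0 := by
      rintro rfl
      have := hp Complex.I (by simp)
      simp at this
    have h1 := ms_ss p (Or.inr hp)
    rcases h1 with h | h
    · exfalso
      apply hp0
      ext k
      have h2 := congrArg (fun r => coeff r k) h
      simp only [act_eq, coeff_zero] at h2
      rw [coeff_zero]
      rcases mul_eq_zero.1 h2 with h3 | h3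
      · exfalso
        have : 0 < 1 / (((k : ℝ) + 1) ^ (k + 1) * (k.factorial : ℝ)) := by positivity
        linarith
      · exact h3
    · exact h
  · have hdiv : ∀ k : ℕ, 1 / (((k : ℝ) + 1) ^ (k + 1) * (k.factorial : ℝ)) / (k.factorial : ℝ) =
        1 / (((k : ℝ) + 1) ^ (k + 1) * (k.factorial : ℝ) ^ 2) := by
      intro k
      rw [div_div]
      congr 1
      ring
    obtain ⟨P, hP1, _, hP3⟩ := lp_of_ms ms_ss (fun k => by positivity) ⟨0, by simp⟩ (by
      intro R hR
      simp_rw [hdiv]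
      refine Summable.of_nonneg_of_le (fun k => by positivity) (fun k => ?_)
        (Real.summable_pow_div_factorial R)
      have h3 : (1 : ℝ) ≤ k.factorial := by exact_mod_cast Nat.succ_le_of_lt k.factorial_pos
      have h4 : (1 : ℝ) ≤ ((k : ℝ) + 1) ^ (k + 1) :=
        one_le_pow₀ (by have : (0 : ℝ) ≤ k := by positivity
                        linarith)
      have h5 : (k.factorial : ℝ) ≤ ((k : ℝ) + 1) ^ (k + 1) * (k.factorial : ℝ) ^ 2 := by
        nlinarith
      rw [one_div_mul_eq_div]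
      exact div_le_div_of_nonneg_left (by positivity) (by positivity) h5)
    simp_rw [hdiv] at hP3
    exact ⟨P, hP1, fun K hK => (tendstoLocallyUniformly_iff_forall_isCompact.1 hP3) K hK⟩

end Pool.Agent.Results.MP_38d282_an.IsMultiplier
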